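import Pool.Agent.P8H15.EK.Stm
import Pool.Agent.P8H15.BR.Fin

/-!
# Project EK: the number of square classes with a lattice is bounded on average
-/

set_option autoImplicit false
set_option linter.all false

open Polynomial Matrix NumberField IsDedekindDomain WeierstrassCurve
open scoped Classical

namespace Pool.Agent.P8H15.EK

open Pool.Agent.N783.PF
open Pool.Agent.N352.PJ (Mt Typ dd)
open Pool.Agent.N783.PQ (chp form Dist Gap Mid Deep eA eB eU uu)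
open Pool.Agent.P8H15.BR
open Pool.Agent.N61.PF (pol pol_coeff0 pol_coeff1 pol_coeff2 pol_monic pol_natDegree crv_finite exists_B)

/-- a family of `n` square classes with a lattice for the curve `p` -/
def Fam {F : Type} [Field F] [NumberField F] (p : 𝓞 F × 𝓞 F) (n : ℕ) : Prop :=
  ∃ (L : Type) (_ : Field L) (_ : NumberField L) (_ : Algebra F L) (θ : L)
    (hG : IsGen 1 (pol p.1 p.2) θ) (s : Finset L), Ineq s ∧
    (∀ α ∈ s, α ≠ 0 ∧ IsSquare (Algebra.norm F α) ∧ ∃ Λ : Submodule (𝓞 F) L, Lat hG α Λ) ∧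
    s.card = n

theorem fam_le (F : Type) [Field F] [NumberField F] : ∃ κ : ℕ, ∀ (p : 𝓞 F × 𝓞 F) (B N : ℕ),
    Ht 1 B (pol p.1 p.2) → Irreducible (fF (pol p.1 p.2)) →
    2 ^ κ * B ≤ 4 ^ N → (KK N κ (pol p.1 p.2)).Finite → ∀ n : ℕ, Fam p n →
    n ≤ 1 + (KK N κ (pol p.1 p.2)).ncard := by
  obtain ⟨κ, hκ⟩ := lb' Pool.Agent.N783.PF.typ Pool.Agent.N707.PF.MAJ.maj
    Pool.Agent.N614.PF.chi Pool.Agent.N482.PF.sq 1 F le_rfl
  refine ⟨κ, fun p B N hH hirr hBN hfin n hn => ?_⟩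
  obtain ⟨L, _, _, _, θ, hG, s, hI, hs, hc⟩ := hn
  obtain ⟨f, hfdef⟩ : ∃ f : (𝓞 F)[X], f = pol p.1 p.2 := ⟨_, rfl⟩
  have hG' : IsGen 1 f θ := by rw [hfdef]; exact hG
  -- every nonsquare of the family has a class
  have hcl : ∀ α ∈ s, ¬ IsSquare α →
      ∃ k ∈ KK N κ (pol p.1 p.2), ∃ (e : Fin (2 * 1 + 1) → L) (A A' : Mt 1 (𝓞 F)),
        LinearIndependent F e ∧ Gr hG α e A A' ∧ k = cls (mF A) (mF A') := by
    intro α hα hnsq
    obtain ⟨hne, hnorm, Λ, hΛ⟩ := hs α hα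
    obtain ⟨e, w, A, A', hli, hGr, hT, hgap, hmid, hbox, hchp⟩ :=
      hκ L (pol p.1 p.2) θ B N hG hH hBN _ _ hne hnorm hΛ hnsq
    refine ⟨cls (mF A) (mF A'), ⟨⟨w, hT, hgap, Or.inl hmid, A, A',
      ⟨hbox, fun q hq => absurd hq (Finset.notMem_empty q),
        fun q hq => absurd hq (Finset.notMem_empty q)⟩, ?_, rfl⟩, ?_⟩, e, A, A', hli, hGr, rfl⟩
    · rw [hchp]; exact hirr
    · rintro M ⟨U, hU, rfl⟩
      rw [Pool.Agent.N530.PQ.chp_act hU, hchp]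
  have hch : ∀ α : L, ∃ k : Set (Mt 1 F × Mt 1 F), (α ∈ s ∧ ¬ IsSquare α) →
      (k ∈ KK N κ (pol p.1 p.2) ∧ ∃ (e : Fin (2 * 1 + 1) → L) (A A' : Mt 1 (𝓞 F)),
        LinearIndependent F e ∧ Gr hG α e A A' ∧ k = cls (mF A) (mF A')) := by
    intro α
    by_cases h : α ∈ s ∧ ¬ IsSquare α
    · obtain ⟨k, hk1, hk2⟩ := hcl α h.1 h.2
      exact ⟨k, fun _ => ⟨hk1, hk2⟩⟩
    · exact ⟨∅, fun h' => absurd h' h⟩
  choose k hk using hch
  have h1 : (s.filter fun α => ¬ IsSquare α).card ≤ (KK N κ (pol p.1 p.2)).ncard := by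
    rw [Set.ncard_eq_toFinset_card _ hfin]
    refine Finset.card_le_card_of_injOn k ?_ ?_
    · intro α hα
      rw [Finset.mem_coe, Finset.mem_filter] at hα
      exact hfin.mem_toFinset.2 (hk α hα).1
    · intro α hα α' hα' hkk
      rw [Finset.mem_coe, Finset.mem_filter] at hα hα'
      obtain ⟨-, e, A, A', hli, hGr, hk1⟩ := hk α hα
      obtain ⟨-, e', A1, A1', hli', hGr', hk1'⟩ := hk α' hα'
      obtain ⟨β, hβ⟩ := sq_of_cls hG (hs α hα.1).1 (hs α' hα'.1).1 hli' hGr hGr'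
        (hk1.symm.trans (hkk.trans hk1'))
      exact hI α hα.1 α' hα'.1 ⟨β, hβ⟩
  have h2 : (s.filter fun α => IsSquare α).card ≤ 1 := by
    rw [Finset.card_le_one]
    intro α hα α' hα'
    rw [Finset.mem_filter] at hα hα'
    obtain ⟨u, hu⟩ := hα.2
    obtain ⟨v, hv⟩ := hα'.2
    have hv0 : v ≠ 0 := by
      rintro rfl
      exact (hs α' hα'.1).1 (by rw [hv, zero_mul])
    refine hI α hα.1 α' hα'.1 ⟨u / v, ?_⟩
    rw [hu, hv]
    field_simp
  have h3 := Finset.card_filter_add_card_filter_not (s := s) (fun α => IsSquare α)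
  omega

/-- the largest number of square classes with a lattice -/
noncomputable def cn {F : Type} [Field F] [NumberField F] (p : 𝓞 F × 𝓞 F) : ℕ :=
  sSup {n : ℕ | Fam p n}

/-- **The sum of the `cn p`.** -/
theorem sum_cn (F : Type) [Field F] [NumberField F] : ∃ C B₀ : ℕ, 1 ≤ B₀ ∧ ∀ B ≥ B₀,
    (∀ p : 𝓞 F × 𝓞 F, TT B p → Irreducible (fF (pol p.1 p.2)) → BddAbove {n : ℕ | Fam p n}) ∧
    ∀ T : Finset (𝓞 F × 𝓞 F), (∀ p ∈ T, TT B p ∧ Irreducible (fF (pol p.1 p.2))) →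
    ∑ p ∈ T, cn p ≤ C * B ^ (5 * Module.finrank ℚ F) := by
  have hpts := Pool.Agent.N490.PF.pts
  obtain ⟨κ, hκ⟩ := fam_le F
  obtain ⟨C1, W, hC1⟩ := badc hpts
    (Pool.Agent.N456.PF.pb hpts Pool.Agent.N42.PF.cqa Pool.Agent.N42.PF.cqb)
    (Pool.Agent.N456.PF.pb0 hpts) F 1 κ le_rfl
  obtain ⟨N₀, hN₀⟩ := hC1 W ∅ (fun _ => ⊥) (fun _ => 0) (fun _ => 0) le_rfl
    (fun q hq => absurd hq (Finset.notMem_empty q))
  obtain ⟨C2, hC2⟩ := tt_count hpts F
  obtain ⟨D, hD⟩ : ∃ D, D = Module.finrank ℚ F := ⟨_, rfl⟩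
  rw [← hD] at hC2 hN₀ ⊢
  refine ⟨C2 + C1 * (4 * 2 ^ κ) ^ (5 * D), 4 ^ N₀, Nat.one_le_pow _ _ (by norm_num),
    fun B hB => ?_⟩
  have hB1 : 1 ≤ B := le_trans (Nat.one_le_pow _ _ (by norm_num)) hB
  obtain ⟨hfin, hcount, -⟩ := hC2 B hB1
  obtain ⟨N, hN1, hN2⟩ := exists_N (2 ^ κ * B) (Nat.mul_pos (by positivity) hB1)
  have hNN : N₀ ≤ N := by
    have : 4 ^ N₀ ≤ 4 ^ N := by
      refine le_trans (hB.trans ?_) hN1
      exact Nat.le_mul_of_pos_left _ (by positivity)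
    exact (Nat.pow_le_pow_iff_right (by norm_num)).1 this
  obtain ⟨hCfin, hCcard⟩ := hN₀ N hNN
  rw [Finset.card_empty, pow_zero, Finset.prod_empty, one_pow, one_mul, one_mul] at hCcard
  have hdd : dd 1 = 5 := by unfold dd; norm_num
  rw [hdd] at hCcard
  have hCcard' : {k : Set (Mt 1 F × Mt 1 F) | CBad 1 N κ ∅ (fun _ => ⊥) (fun _ => 0) k}.ncard ≤
      C1 * (4 * 2 ^ κ) ^ (5 * D) * B ^ (5 * D) := by
    refine hCcard.trans ?_
    rw [mul_assoc C1]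
    refine Nat.mul_le_mul_left _ ?_
    have e : 2 ^ (D * (2 * N * 5)) = (4 ^ N) ^ (5 * D) := by
      rw [show (4 : ℕ) = 2 ^ 2 by norm_num, ← pow_mul, ← pow_mul]
      congr 1
      ring
    rw [e, ← mul_pow]
    refine Nat.pow_le_pow_left (hN2.trans (le_of_eq ?_)) _
    ring
  have hKfin : ∀ f : (𝓞 F)[X], (KK N κ f).Finite := fun f => hCfin.subset fun k hk => hk.1
  have hfam : ∀ p : 𝓞 F × 𝓞 F, TT B p → Irreducible (fF (pol p.1 p.2)) → ∀ n : ℕ, Fam p n →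
      n ≤ 1 + ((hKfin (pol p.1 p.2)).toFinset).card := by
    intro p hp hirr n hn
    have h2 := hκ p B N (tt_ht hp) hirr hN1 (hKfin _) n hn
    rw [Set.ncard_eq_toFinset_card _ (hKfin _)] at h2
    exact h2
  refine ⟨fun p hp hirr => ⟨_, fun n hn => hfam p hp hirr n hn⟩, fun T hT => ?_⟩
  have hcardT : T.card ≤ C2 * B ^ (5 * D) := by
    refine le_trans ?_ hcount
    rw [← Set.ncard_coe_finset]
    exact Set.ncard_le_ncard (fun p hp => (hT p hp).1) hfin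
  have hs1 : ∑ p ∈ T, cn p ≤ T.card +
      {k : Set (Mt 1 F × Mt 1 F) | CBad 1 N κ ∅ (fun _ => ⊥) (fun _ => 0) k}.ncard := by
    have h1 : ∀ p ∈ T, cn p ≤ 1 + ((hKfin (pol p.1 p.2)).toFinset).card := by
      intro p hp
      rcases Set.eq_empty_or_nonempty {n : ℕ | Fam p n} with he | he
      · rw [cn, he, Nat.sSup_def ⟨0, by simp⟩]
        exact (Nat.find_min' _ (by simp)).trans (Nat.zero_le _)
      · exact csSup_le he fun n hn => hfam p (hT p hp).1 (hT p hp).2 n hn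
    refine (Finset.sum_le_sum h1).trans ?_
    rw [Finset.sum_add_distrib, Finset.sum_const, smul_eq_mul, mul_one]
    refine Nat.add_le_add_left ?_ _
    rw [← Finset.card_biUnion (s := T) (t := fun p => (hKfin (pol p.1 p.2)).toFinset)]
    · rw [Set.ncard_eq_toFinset_card _ hCfin]
      refine Finset.card_le_card ?_
      intro k hk
      rw [Finset.mem_biUnion] at hk
      obtain ⟨p, -, hk⟩ := hk
      rw [Set.Finite.mem_toFinset] at hk ⊢
      exact hk.1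
    · intro p _ q _ hpq
      have hne : pol p.1 p.2 ≠ pol q.1 q.2 := by
        intro h
        apply hpq
        have e1 := congrArg (fun f : (𝓞 F)[X] => f.coeff 1) h
        have e0 := congrArg (fun f : (𝓞 F)[X] => f.coeff 0) h
        simp only [pol_coeff1, pol_coeff0] at e1 e0
        exact Prod.ext e1 e0
      have hd := KK_disj (N := N) (c := κ) hne
      rw [Function.onFun, Finset.disjoint_left]
      intro k hk hk'
      rw [Set.Finite.mem_toFinset] at hk hk'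
      exact Set.disjoint_left.1 hd hk hk'
  calc ∑ p ∈ T, cn p ≤ C2 * B ^ (5 * D) + C1 * (4 * 2 ^ κ) ^ (5 * D) * B ^ (5 * D) :=
        hs1.trans (Nat.add_le_add hcardT hCcard')
    _ = _ := by ring

/-- the average over the minimal curves of a function with bounded averages over the boxes -/
theorem avg_of (F : Type) [Field F] [NumberField F] (c : 𝓞 F × 𝓞 F → ℝ) (hc0 : ∀ p, 0 ≤ c p)
    (C B₀ : ℕ) (hB₀ : 1 ≤ B₀) (hsum : ∀ B ≥ B₀, ∀ T : Finset (𝓞 F × 𝓞 F), (∀ p ∈ T, TT B p) →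
      ∑ p ∈ T, c p ≤ C * (B : ℝ) ^ (5 * Module.finrank ℚ F)) : ∃ C' : ℝ, 0 < C' ∧ ∀ Y : ℝ,
    ∀ T : Finset (𝓞 F × 𝓞 F), (∀ p, p ∈ T ↔ Crv Y p) →
    ∑ p ∈ T, c p ≤ C' * (T.card : ℝ) := by
  obtain ⟨e, he, B₁, hB₁, hlow⟩ := crv_low F
  obtain ⟨d, hd⟩ : ∃ d, d = Module.finrank ℚ F := ⟨_, rfl⟩
  rw [← hd] at hsum hlow
  obtain ⟨B₂, hB₂⟩ : ∃ B₂, B₂ = max B₀ B₁ := ⟨_, rfl⟩
  have hB₂1 : 1 ≤ B₂ := by rw [hB₂]; exact hB₀.trans (le_max_left _ _)
  have hfin0 := crv_finite (F := F) Pool.Agent.N490.PF.pts (27 * (B₂ : ℝ) ^ 6)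
  obtain ⟨M, hM⟩ : ∃ M : ℝ, M = ∑ p ∈ hfin0.toFinset, c p := ⟨_, rfl⟩
  have hM0 : 0 ≤ M := by rw [hM]; exact Finset.sum_nonneg fun p _ => hc0 p
  refine ⟨C * 4 ^ (5 * d) / e + M + 1, by positivity, fun Y T hT => ?_⟩
  rcases le_or_gt (27 * (B₂ : ℝ) ^ 6) Y with hY | hY
  · obtain ⟨B, hBB, hBY, hYB⟩ := exists_B B₂ Y hB₂1 hY
    have hB1 : 1 ≤ B := hB₂1.trans hBB
    have hB1r : (1 : ℝ) ≤ B := by exact_mod_cast hB1
    have hlo := hlow B (by rw [hB₂] at hBB; exact (le_max_right _ _).trans hBB) Y hBY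
    have hTc : ({p : 𝓞 F × 𝓞 F | Crv Y p}.ncard : ℝ) = (T.card : ℝ) := by
      have : {p : 𝓞 F × 𝓞 F | Crv Y p} = (T : Set (𝓞 F × 𝓞 F)) := by
        ext p
        exact (hT p).symm
      rw [this, Set.ncard_coe_finset]
    rw [hTc] at hlo
    have hTT : ∀ p ∈ T, TT (2 * (B + 1)) p := by
      intro p hp
      have hp' := (hT p).1 hp
      refine ⟨fun σ => ?_, fun σ => ?_, hp'.disc⟩
      · have h3 := (hp'.ht σ).1
        by_contra hcon
        rw [not_le] at hcon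
        have h4 : (((2 * (B + 1) : ℕ) : ℝ) ^ 2) ^ 3 < ‖σ (p.1 : F)‖ ^ 3 :=
          pow_lt_pow_left₀ hcon (by positivity) (by norm_num)
        have h5 : (((2 * (B + 1) : ℕ) : ℝ) ^ 2) ^ 3 = 64 * ((B : ℝ) + 1) ^ 6 := by
          push_cast
          ring
        have h6 : 0 < ((B : ℝ) + 1) ^ 6 := by positivity
        linarith
      · have h3 := (hp'.ht σ).2
        by_contra hcon
        rw [not_le] at hcon
        have h4 : (((2 * (B + 1) : ℕ) : ℝ) ^ 3) ^ 2 < ‖σ (p.2 : F)‖ ^ 2 :=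
          pow_lt_pow_left₀ hcon (by positivity) (by norm_num)
        have h5 : (((2 * (B + 1) : ℕ) : ℝ) ^ 3) ^ 2 = 64 * ((B : ℝ) + 1) ^ 6 := by
          push_cast
          ring
        have h6 : 0 < ((B : ℝ) + 1) ^ 6 := by positivity
        linarith
    have h8 := hsum (2 * (B + 1)) (by
      have : B₀ ≤ B := by rw [hB₂] at hBB; exact (le_max_left _ _).trans hBB
      omega) T hTT
    have h9 : ((2 * (B + 1) : ℕ) : ℝ) ≤ 4 * (B : ℝ) := by
      push_cast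
      linarith
    have h10 : (B : ℝ) ^ (5 * d) ≤ (T.card : ℝ) / e := by
      rw [le_div_iff₀ he]
      linarith
    have hT0 : (0 : ℝ) ≤ T.card := Nat.cast_nonneg _
    calc ∑ p ∈ T, c p ≤ (C : ℝ) * ((2 * (B + 1) : ℕ) : ℝ) ^ (5 * d) := h8
      _ ≤ (C : ℝ) * (4 * (B : ℝ)) ^ (5 * d) := by
          refine mul_le_mul_of_nonneg_left ?_ (Nat.cast_nonneg _)
          exact pow_le_pow_left₀ (Nat.cast_nonneg _) h9 _
      _ = (C : ℝ) * 4 ^ (5 * d) * (B : ℝ) ^ (5 * d) := by rw [mul_pow]; ring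
      _ ≤ (C : ℝ) * 4 ^ (5 * d) * ((T.card : ℝ) / e) :=
          mul_le_mul_of_nonneg_left h10 (by positivity)
      _ = C * 4 ^ (5 * d) / e * T.card := by ring
      _ ≤ (C * 4 ^ (5 * d) / e + M + 1) * (T.card : ℝ) := by
          refine mul_le_mul_of_nonneg_right ?_ hT0
          linarith
  · have h1 : ∀ p ∈ T, p ∈ hfin0.toFinset := by
      intro p hp
      have hp' := (hT p).1 hp
      rw [Set.Finite.mem_toFinset]
      exact ⟨hp'.disc, hp'.min, fun σ => ⟨(hp'.ht σ).1.trans hY.le, (hp'.ht σ).2.trans hY.le⟩⟩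
    have hnn : 0 ≤ (C : ℝ) * 4 ^ (5 * d) / e := by positivity
    calc ∑ p ∈ T, c p ≤ ∑ p ∈ T, M := by
          refine Finset.sum_le_sum fun p hp => ?_
          rw [hM]
          exact Finset.single_le_sum (f := c) (fun q _ => hc0 q) (h1 p hp)
      _ = M * T.card := by rw [Finset.sum_const, nsmul_eq_mul, mul_comm]
      _ ≤ (C * 4 ^ (5 * d) / e + M + 1) * (T.card : ℝ) := by
          refine mul_le_mul_of_nonneg_right ?_ (Nat.cast_nonneg _)
          linarith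

end Pool.Agent.P8H15.EK
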