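import Pool.Agent.P8H15.EK.Cnt

/-!
# Project EK: assembly
-/

set_option autoImplicit false
set_option linter.all false

open Polynomial NumberField IsDedekindDomain WeierstrassCurve
open scoped Classical

namespace Pool.Agent.P8H15.EK

open Pool.Agent.N783.PF (IsGen Lat fF Bd Crv)
open Pool.Agent.P8H15.BR
open Pool.Agent.N61.PF (pol pol_coeff0 pol_coeff1 pol_coeff2 pol_monic pol_natDegree crv_finite exists_B)

/-- the number of the primes of `F` which ramify in `K` -/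
noncomputable def nram (F K : Type) [Field F] [NumberField F] [Field K] [NumberField K]
    [Algebra F K] : ℕ := {v : HeightOneSpectrum (𝓞 F) | RamIn K v}.ncard

/-- the rank over `K` -/
noncomputable def rkK {F : Type} [Field F] [NumberField F] (K : Type) [Field K] [NumberField K]
    [Algebra F K] (p : 𝓞 F × 𝓞 F) : ℕ :=
  Module.finrank ℤ (crv (algebraMap F K p.1) (algebraMap F K p.2)).toAffine.Point

/-- the curves of height at most `Y` lie in a box -/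
theorem crv_tt {F : Type} [Field F] [NumberField F] {B : ℕ} {Y : ℝ} (hYB : Y < 27 * ((B : ℝ) + 1) ^ 6)
    {p : 𝓞 F × 𝓞 F} (hp' : Crv Y p) : TT (2 * (B + 1)) p := by
  refine ⟨fun σ => ?_, fun σ => ?_, hp'.disc⟩
  · have h3 := (hp'.ht σ).1
    by_contra hcon
    rw [not_le] at hcon
    have h4 : (((2 * (B + 1) : ℕ) : ℝ) ^ 2) ^ 3 < ‖σ (p.1 : F)‖ ^ 3 :=
      pow_lt_pow_left₀ hcon (by positivity) (by norm_num)
    have h5 : (((2 * (B + 1) : ℕ) : ℝ) ^ 2) ^ 3 = 64 * ((B : ℝ) + 1) ^ 6 := by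
      push_cast
      ring
    have h6 : 0 < ((B : ℝ) + 1) ^ 6 := by positivity
    linarith
  · have h3 := (hp'.ht σ).2
    by_contra hcon
    rw [not_le] at hcon
    have h4 : (((2 * (B + 1) : ℕ) : ℝ) ^ 3) ^ 2 < ‖σ (p.2 : F)‖ ^ 2 :=
      pow_lt_pow_left₀ hcon (by positivity) (by norm_num)
    have h5 : (((2 * (B + 1) : ℕ) : ℝ) ^ 3) ^ 2 = 64 * ((B : ℝ) + 1) ^ 6 := by
      push_cast
      ring
    have h6 : 0 < ((B : ℝ) + 1) ^ 6 := by positivity
    linarith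

/-- the curves with a point of order two over `F` are few, also with weights of the size of the height -/
theorem red_few (F : Type) [Field F] [NumberField F] (M : ℕ) (ε : ℝ) (hε : 0 < ε) : ∃ Y₀ : ℝ, ∀ Y ≥ Y₀,
    ∀ T : Finset (𝓞 F × 𝓞 F), (∀ p, p ∈ T ↔ Crv Y p) → ∀ f : 𝓞 F × 𝓞 F → ℝ,
    (∀ (B : ℕ) (p : 𝓞 F × 𝓞 F), 1 ≤ B → TT B p → ¬ Irreducible (fF (pol p.1 p.2)) → f p ≤ M * B) →
    ∑ p ∈ T.filter (fun p => ¬ Irreducible (fF (pol p.1 p.2))), f p ≤ ε * (T.card : ℝ) := by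
  obtain ⟨e, he, B₁, hB₁, hlow⟩ := crv_low F
  obtain ⟨C2, hC2⟩ := tt_count Pool.Agent.N490.PF.pts F
  obtain ⟨d, hd⟩ : ∃ d, d = Module.finrank ℚ F := ⟨_, rfl⟩
  have hd1 : 1 ≤ d := by rw [hd]; exact Module.finrank_pos
  rw [← hd] at hlow hC2
  obtain ⟨B₂, hB₂⟩ : ∃ B₂ : ℕ, B₂ = max B₁ ⌈(C2 * 4 ^ (3 * d) * (M * 4) / (ε * e) : ℝ)⌉₊ := ⟨_, rfl⟩
  have hB₂1 : 1 ≤ B₂ := by rw [hB₂]; exact hB₁.trans (le_max_left _ _)
  refine ⟨27 * (B₂ : ℝ) ^ 6, fun Y hY T hT f hf => ?_⟩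
  obtain ⟨B, hBB, hBY, hYB⟩ := exists_B B₂ Y hB₂1 hY
  have hB1 : 1 ≤ B := hB₂1.trans hBB
  have hB1r : (1 : ℝ) ≤ B := by exact_mod_cast hB1
  have hlo := hlow B (by rw [hB₂] at hBB; exact (le_max_left _ _).trans hBB) Y hBY
  have hTc : ({p : 𝓞 F × 𝓞 F | Crv Y p}.ncard : ℝ) = (T.card : ℝ) := by
    have : {p : 𝓞 F × 𝓞 F | Crv Y p} = (T : Set (𝓞 F × 𝓞 F)) := by
      ext p
      exact (hT p).symm
    rw [this, Set.ncard_coe_finset]
  rw [hTc] at hlo
  obtain ⟨hfin, -, hred⟩ := hC2 (2 * (B + 1)) (by omega)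
  have h9 : ((2 * (B + 1) : ℕ) : ℝ) ≤ 4 * (B : ℝ) := by
    push_cast
    linarith
  have h1 : ((T.filter (fun p => ¬ Irreducible (fF (pol p.1 p.2)))).card : ℝ) ≤
      C2 * (4 * (B : ℝ)) ^ (3 * d) := by
    have h2 : (T.filter (fun p => ¬ Irreducible (fF (pol p.1 p.2)))).card ≤
        C2 * (2 * (B + 1)) ^ (3 * d) := by
      refine le_trans ?_ hred
      rw [← Set.ncard_coe_finset]
      refine Set.ncard_le_ncard (fun p hp => ?_) (hfin.subset fun p hp => hp.1)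
      rw [Finset.coe_filter] at hp
      exact ⟨crv_tt hYB ((hT p).1 hp.1), hp.2⟩
    calc ((T.filter (fun p => ¬ Irreducible (fF (pol p.1 p.2)))).card : ℝ) ≤
          ((C2 * (2 * (B + 1)) ^ (3 * d) : ℕ) : ℝ) := by exact_mod_cast h2
      _ = C2 * ((2 * (B + 1) : ℕ) : ℝ) ^ (3 * d) := by push_cast; ring
      _ ≤ _ := by
          refine mul_le_mul_of_nonneg_left ?_ (Nat.cast_nonneg _)
          exact pow_le_pow_left₀ (Nat.cast_nonneg _) h9 _
  have h3 : ∀ p ∈ T.filter (fun p => ¬ Irreducible (fF (pol p.1 p.2))), f p ≤ M * (4 * B) := by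
    intro p hp
    rw [Finset.mem_filter] at hp
    refine (hf (2 * (B + 1)) p (by omega) (crv_tt hYB ((hT p).1 hp.1)) hp.2).trans ?_
    exact mul_le_mul_of_nonneg_left h9 (Nat.cast_nonneg _)
  have h4 : (C2 * 4 ^ (3 * d) * (M * 4) / (ε * e) : ℝ) ≤ B := by
    refine (Nat.le_ceil _).trans ?_
    rw [hB₂] at hBB
    exact_mod_cast (le_max_right _ _).trans hBB
  rw [div_le_iff₀ (by positivity)] at h4
  calc ∑ p ∈ T.filter (fun p => ¬ Irreducible (fF (pol p.1 p.2))), f p ≤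
        ∑ p ∈ T.filter (fun p => ¬ Irreducible (fF (pol p.1 p.2))), (M * (4 * B) : ℝ) :=
        Finset.sum_le_sum h3
    _ = ((T.filter (fun p => ¬ Irreducible (fF (pol p.1 p.2)))).card : ℝ) * (M * (4 * B)) := by
        rw [Finset.sum_const, nsmul_eq_mul]
    _ ≤ (C2 * (4 * (B : ℝ)) ^ (3 * d)) * (M * (4 * B)) :=
        mul_le_mul_of_nonneg_right h1 (by positivity)
    _ = (C2 * 4 ^ (3 * d) * (M * 4)) * (B : ℝ) ^ (3 * d + 1) := by
        rw [mul_pow, pow_succ]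
        ring
    _ ≤ ((B : ℝ) * (ε * e)) * (B : ℝ) ^ (3 * d + 1) :=
        mul_le_mul_of_nonneg_right h4 (by positivity)
    _ = ε * (e * (B : ℝ) ^ (3 * d + 2)) := by
        rw [pow_succ (B : ℝ) (3 * d + 1)]
        ring
    _ ≤ ε * (e * (B : ℝ) ^ (5 * d)) := by
        refine mul_le_mul_of_nonneg_left (mul_le_mul_of_nonneg_left ?_ he.le) hε.le
        exact pow_le_pow_right₀ hB1r (by omega)
    _ ≤ ε * (T.card : ℝ) := mul_le_mul_of_nonneg_left hlo hε.le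

/-- the rank over `K` of the curves with a point of order two over `F` -/
theorem red_rkK (F K : Type) [Field F] [NumberField F] [Field K] [NumberField K] [Algebra F K] :
    ∃ M : ℕ, ∀ (B : ℕ) (p : 𝓞 F × 𝓞 F), 1 ≤ B → TT B p → ¬ Irreducible (fF (pol p.1 p.2)) →
    (rkK K p : ℝ) ≤ M * B := by
  obtain ⟨M, hM⟩ := red_rank K
  obtain ⟨m, hm⟩ : ∃ m, m = Module.finrank ℚ K := ⟨_, rfl⟩
  rw [← hm] at hM
  refine ⟨M + m, fun B p hB hp hirr => ?_⟩
  obtain ⟨q, hq⟩ : ∃ q : 𝓞 K × 𝓞 K, q = (algebraMap (𝓞 F) (𝓞 K) p.1, algebraMap (𝓞 F) (𝓞 K) p.2) :=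
    ⟨_, rfl⟩
  have hq1 : (q.1 : K) = algebraMap F K (p.1 : F) := by rw [hq]; rfl
  have hq2 : (q.2 : K) = algebraMap F K (p.2 : F) := by rw [hq]; rfl
  have hTT : TT B q := by
    refine ⟨fun σ => ?_, fun σ => ?_, ?_⟩
    · rw [hq1]; exact hp.ha (σ.comp (algebraMap F K))
    · rw [hq2]; exact hp.hb (σ.comp (algebraMap F K))
    · rw [hq]
      simp only
      intro h
      apply hp.disc
      apply FaithfulSMul.algebraMap_injective (𝓞 F) (𝓞 K)
      rw [map_add, map_mul, map_mul, map_pow, map_pow, map_ofNat, map_ofNat, map_zero]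
      exact h
  obtain ⟨e, he⟩ := exists_root hirr
  have hirr' : ¬ Irreducible (fF (pol q.1 q.2)) := by
    intro h
    have hmon : (fF (pol q.1 q.2)).Monic := (pol_monic q.1 q.2).map _
    have hdeg : (fF (pol q.1 q.2)).natDegree = 3 := by
      rw [(pol_monic q.1 q.2).natDegree_map, pol_natDegree]
    have h1 := (hmon.irreducible_iff_roots_eq_zero_of_degree_le_three (by rw [hdeg]; norm_num)
      (by rw [hdeg])).1 h
    have h2 : algebraMap F K (e : F) ∈ (fF (pol q.1 q.2)).roots := by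
      rw [mem_roots hmon.ne_zero, IsRoot.def]
      have h3 : (fF (pol q.1 q.2)).eval (algebraMap F K (e : F)) =
          algebraMap F K (e : F) ^ 3 + (q.1 : K) * algebraMap F K (e : F) + (q.2 : K) := by
        simp [fF, pol]
      rw [h3, hq1, hq2, ← map_pow, ← map_mul, ← map_add, ← map_add]
      have h4 : (e : F) ^ 3 + (p.1 : F) * (e : F) + (p.2 : F) = 0 := by
        have : ((e ^ 3 + p.1 * e + p.2 : 𝓞 F) : F) = 0 := by rw [he, czero]
        rw [cadd, cadd, cmul, cpow] at this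
        exact this
      rw [h4, map_zero]
    rw [h1] at h2
    exact absurd h2 (Multiset.notMem_zero _)
  have h := hM B q hTT hirr'
  have hrk : rk q = rkK K p := by
    unfold rk rkK
    rw [hq1, hq2]
    rfl
  rw [hrk] at h
  have h5 : M * B ^ m ≤ 2 ^ (M + m * B) := by
    rw [pow_add, pow_mul]
    refine Nat.mul_le_mul Nat.lt_two_pow_self.le ?_
    rw [← pow_mul, mul_comm m B, pow_mul]
    exact Nat.pow_le_pow_left Nat.lt_two_pow_self.le _
  have h6 : rkK K p ≤ M + m * B := (Nat.pow_le_pow_iff_right (by norm_num)).1 (h.trans h5)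
  have h7 : rkK K p ≤ (M + m) * B := by
    refine h6.trans ?_
    rw [add_mul]
    exact Nat.add_le_add_right (Nat.le_mul_of_pos_right _ hB) _
  exact_mod_cast h7

/-- the majorant of the ranks -/
noncomputable def maj {F : Type} [Field F] [NumberField F] (p : 𝓞 F × 𝓞 F) : ℕ :=
  if Irreducible (fF (pol p.1 p.2)) then
    cn p + 6 * (SqD p.1 p.2).ncard + 3 * Module.finrank ℚ F
  else 0

theorem exists_tt {F : Type} [Field F] [NumberField F] (p : 𝓞 F × 𝓞 F)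
    (hp : 4 * p.1 ^ 3 + 27 * p.2 ^ 2 ≠ 0) (B₀ : ℕ) : ∃ B ≥ B₀, TT B p := by
  obtain ⟨R, hR⟩ : ∃ R : ℝ, ∀ σ : F →+* ℂ, ‖σ (p.1 : F)‖ ≤ R ∧ ‖σ (p.2 : F)‖ ≤ R := by
    obtain ⟨R1, h1⟩ := (Set.finite_range fun σ : F →+* ℂ => ‖σ (p.1 : F)‖).bddAbove
    obtain ⟨R2, h2⟩ := (Set.finite_range fun σ : F →+* ℂ => ‖σ (p.2 : F)‖).bddAbove
    exact ⟨max R1 R2, fun σ => ⟨(h1 ⟨σ, rfl⟩).trans (le_max_left _ _),
      (h2 ⟨σ, rfl⟩).trans (le_max_right _ _)⟩⟩
  obtain ⟨B, hB⟩ : ∃ B : ℕ, B = max (max B₀ 1) ⌈R⌉₊ := ⟨_, rfl⟩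
  have hB1 : (1 : ℝ) ≤ B := by
    rw [hB]
    exact_mod_cast (le_max_right _ _).trans (le_max_left _ _)
  have hBR : R ≤ B := by
    refine (Nat.le_ceil R).trans ?_
    rw [hB]
    exact_mod_cast le_max_right _ _
  refine ⟨B, by rw [hB]; exact (le_max_left _ _).trans (le_max_left _ _), fun σ => ?_, fun σ => ?_, hp⟩
  · exact ((hR σ).1.trans hBR).trans (le_self_pow₀ hB1 (by norm_num))
  · exact ((hR σ).2.trans hBR).trans (le_self_pow₀ hB1 (by norm_num))

/-- the average of the majorant is bounded -/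
theorem maj_avg (hD : S_DIS) (F : Type) [Field F] [NumberField F] : ∃ C' : ℝ, 0 < C' ∧ ∀ Y : ℝ,
    ∀ T : Finset (𝓞 F × 𝓞 F), (∀ p, p ∈ T ↔ Crv Y p) →
    ∑ p ∈ T, (maj p : ℝ) ≤ C' * (T.card : ℝ) := by
  obtain ⟨C1, B₁, hB₁, h1⟩ := sum_cn F
  obtain ⟨C2, B₂, hB₂, h2⟩ := hD F
  obtain ⟨C3, hC3⟩ := tt_count Pool.Agent.N490.PF.pts F
  refine avg_of F (fun p => (maj p : ℝ)) (fun p => Nat.cast_nonneg _)
    (C1 + 6 * C2 + 3 * Module.finrank ℚ F * C3) (max B₁ B₂) (hB₁.trans (le_max_left _ _)) ?_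
  intro B hB T hT
  have hB1 : B₁ ≤ B := (le_max_left _ _).trans hB
  have hB2 : B₂ ≤ B := (le_max_right _ _).trans hB
  obtain ⟨hfin, hcount, -⟩ := hC3 B (hB₁.trans hB1)
  have hcardT : T.card ≤ C3 * B ^ (5 * Module.finrank ℚ F) := by
    refine le_trans ?_ hcount
    rw [← Set.ncard_coe_finset]
    exact Set.ncard_le_ncard (fun p hp => hT p hp) hfin
  have hirr := (h1 B hB1).2 (T.filter fun p => Irreducible (fF (pol p.1 p.2))) (fun p hp => by
    rw [Finset.mem_filter] at hp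
    exact ⟨hT p hp.1, hp.2⟩)
  have hsq := (h2 B hB2 T (fun p hp => ⟨(hT p hp).ha, (hT p hp).hb, (hT p hp).disc⟩)).2
  have hnat : ∑ p ∈ T, maj p ≤ (C1 + 6 * C2 + 3 * Module.finrank ℚ F * C3) *
      B ^ (5 * Module.finrank ℚ F) := by
    have e1 : ∀ p ∈ T, maj p ≤ (if Irreducible (fF (pol p.1 p.2)) then cn p else 0) +
        (6 * (SqD p.1 p.2).ncard + 3 * Module.finrank ℚ F) := by
      intro p _
      unfold maj
      split_ifs
      · omega
      · omega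
    calc ∑ p ∈ T, maj p ≤ ∑ p ∈ T, ((if Irreducible (fF (pol p.1 p.2)) then cn p else 0) +
          (6 * (SqD p.1 p.2).ncard + 3 * Module.finrank ℚ F)) := Finset.sum_le_sum e1
      _ = ∑ p ∈ T.filter (fun p => Irreducible (fF (pol p.1 p.2))), cn p +
          (6 * ∑ p ∈ T, (SqD p.1 p.2).ncard + T.card * (3 * Module.finrank ℚ F)) := by
          rw [Finset.sum_add_distrib, Finset.sum_add_distrib, ← Finset.mul_sum, Finset.sum_const,
            smul_eq_mul, Finset.sum_filter]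
      _ ≤ C1 * B ^ (5 * Module.finrank ℚ F) + (6 * (C2 * B ^ (5 * Module.finrank ℚ F)) +
          (C3 * B ^ (5 * Module.finrank ℚ F)) * (3 * Module.finrank ℚ F)) :=
          Nat.add_le_add hirr (Nat.add_le_add (Nat.mul_le_mul_left _ hsq)
            (Nat.mul_le_mul_right _ hcardT))
      _ = _ := by ring
  exact_mod_cast hnat

/-- the bound for the rank -/
theorem rkK_le (hS : S_SEL) (hD : S_DIS) (hR : S_RAM) {F : Type} [Field F] [NumberField F] (K : Type)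
    [Field K] [NumberField K] [Algebra F K] [IsGalois F K] (n : ℕ) (hn : Module.finrank F K = 2 ^ n)
    (p : 𝓞 F × 𝓞 F) (hp : 4 * p.1 ^ 3 + 27 * p.2 ^ 2 ≠ 0) (hirr : Irreducible (fF (pol p.1 p.2))) :
    rkK K p ≤ Module.finrank F K * (maj p + 6 * nram F K) := by
  obtain ⟨C1, B₁, hB₁, h1⟩ := sum_cn F
  obtain ⟨C2, B₂, hB₂, h2⟩ := hD F
  obtain ⟨B, hB, hTT⟩ := exists_tt p hp (max B₁ B₂)
  have hbdd := (h1 B ((le_max_left _ _).trans hB)).1 p hTT hirr
  have hsqf : (SqD p.1 p.2).Finite := (h2 B ((le_max_right _ _).trans hB) {p} (fun q hq => by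
    rw [Finset.mem_singleton] at hq
    rw [hq]
    exact ⟨hTT.ha, hTT.hb, hTT.disc⟩)).1 p (Finset.mem_singleton_self _)
  have hramf := hR F K
  obtain ⟨T, hT⟩ : ∃ T : Finset (HeightOneSpectrum (𝓞 F)), T = hsqf.toFinset ∪ hramf.toFinset := ⟨_, rfl⟩
  obtain ⟨L, _, _, _, θ, hG, s, hI, hs, hle⟩ := hS F K n hn p.1 p.2 hirr T
    (fun v hv => by rw [hT, Finset.mem_union]; exact Or.inl (hsqf.mem_toFinset.2 hv))
    (fun v hv => by rw [hT, Finset.mem_union]; exact Or.inr (hramf.mem_toFinset.2 hv))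
  have hTc : T.card ≤ (SqD p.1 p.2).ncard + nram F K := by
    rw [hT, nram, Set.ncard_eq_toFinset_card _ hsqf, Set.ncard_eq_toFinset_card _ hramf]
    exact Finset.card_union_le _ _
  have hsc : s.card ≤ cn p := le_csSup hbdd ⟨L, _, _, _, θ, hG, s, hI, hs, rfl⟩
  have hfin : 2 ^ rkK K p ≤ 2 ^ (Module.finrank F K * (maj p + 6 * nram F K)) := by
    refine hle.trans ?_
    rw [mul_comm (Module.finrank F K), pow_mul]
    refine Nat.pow_le_pow_left ?_ _
    calc s.card * 2 ^ (6 * T.card + 3 * Module.finrank ℚ F) ≤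
          2 ^ cn p * 2 ^ (6 * T.card + 3 * Module.finrank ℚ F) :=
          Nat.mul_le_mul_right _ (hsc.trans Nat.lt_two_pow_self.le)
      _ = 2 ^ (cn p + (6 * T.card + 3 * Module.finrank ℚ F)) := (pow_add _ _ _).symm
      _ ≤ _ := by
          refine Nat.pow_le_pow_right (by norm_num) ?_
          rw [maj, if_pos hirr]
          omega
  exact (Nat.pow_le_pow_iff_right (by norm_num)).1 hfin

end Pool.Agent.P8H15.EK
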