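import Pool.Agent.P8H15.EK.Stm

/-!
# Project EK: an exponential moment of the number of the primes whose square divides the discriminant
-/

set_option autoImplicit false
set_option linter.all false

open Polynomial NumberField IsDedekindDomain
open scoped Classical

namespace Pool.Agent.P8H15.EK

open Pool.Agent.N783.PF (Bd)

/-- DI2: the average of `2 ^ |SqD p|` is bounded (`d = [F : ℚ]`, `Δ = 4 a³ + 27 b²`, `N` = norm). It contains DIS
(`Pool.Agent.P8H55.EK.dis`), whose proof can be reused.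
PROOF. `B₀` large. For `p ∈ T` let `S = SqD p`. (i) `∏_{v ∈ S} (N v)² ≤ |N Δ| ≤ (31 B⁶)^d`, so at most `25` of the
`v ∈ S` have `(N v)^8 > B^d`. Let `S'` be the others, `m = |S'|`; so `2^|S| ≤ 2^25 2^m`. (ii) There is `A ⊆ S'` with
`N A := ∏_{v ∈ A} N v`, `(N A)² ≤ B^d`, and `m ≤ 10 |A|`: fill blocks greedily with the elements of `S'`, a block is
closed when its product `P` satisfies `P^8 > B^{3d}`; then `P ≤ B^{3d/8} B^{d/8} = B^{d/2}`; as the product of all is
at most `31^{d/2} B^{3d}`, there are at most `9` closed blocks, and one which is not closed; take the block with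
most elements. (Or in another way: if `m ≤ 10 |A|` fails for all `A ⊆ S'` with `(N A)² ≤ B^d`, take a maximal
family of disjoint such sets. Or by strong induction over `m`.) So `2^m ≤ 1024^|A|`, and
`2^|S| ≤ 2^25 ∑_A 1024^|A| 1[A ⊆ S]`, the sum over the finite sets `A` of primes with `(N A)² ≤ B^d`.
(iii) For such an `A` the number of the `p ∈ T` with `A ⊆ SqD p` is at most `C M^(number of v ∈ A over 6) 2^|A|
B^{5d} / (N A)²`: let `I = ∏_{v ∈ A} v²`, of norm `(N A)² ≤ B^d`. The number of the pairs of classes modulo `I` with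
`v² ∣ Δ` for all `v ∈ A` is `∏_{v ∈ A} ρ(v)` (Chinese remainder theorem; or a map to the product of the quotients by
`v²`), `ρ(v) < 2 (N v)²` for `v ∤ 6` as in DIS, and `ρ(v) ≤ (N v)⁴` always. In each class modulo `I` there are at most
`C (B^{2d} / N I + 1) ≤ 2 C B^{2d} / N I` elements `a` with `|σ a| ≤ B²`, and at most `2 C B^{3d} / N I` elements `b`
(`S_PTS` in `Pool/Agent/N783/PF/Def.lean`, proved in `Pool.Agent.N490.PF.pts`). (iv) `∑_A 2048^|A| / (N A)² ≤
∏_v (1 + 2048 / (N v)²) < ∞`, the product over any finite set of primes (`Finset.prod_one_add`, `1 + x ≤ exp x`, and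
`∑_v (N v)^(-2) < ∞` as in DIS); the `v` over `6` contribute a constant factor. -/
def S_DI2 : Prop := ∀ (F : Type) [Field F] [NumberField F], ∃ C B₀ : ℕ, 1 ≤ B₀ ∧ ∀ B ≥ B₀,
  ∀ T : Finset (𝓞 F × 𝓞 F), (∀ p ∈ T, Bd (p.1 : F) ((B : ℝ) ^ 2) ∧ Bd (p.2 : F) ((B : ℝ) ^ 3) ∧
    4 * p.1 ^ 3 + 27 * p.2 ^ 2 ≠ 0) →
  (∀ p ∈ T, (SqD p.1 p.2).Finite) ∧
  ∑ p ∈ T, 2 ^ (SqD p.1 p.2).ncard ≤ C * B ^ (5 * Module.finrank ℚ F)

end Pool.Agent.P8H15.EK
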