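import Pool.Agent.P8H15.BR.Coord
import Pool.Agent.N61.PF.Fin1

/-!
# Project EK: the ranks of the elliptic curves over `F` in all 2-extensions of `F` (row MP_7cad78_nt)

Target.  For every number field `F` there are `C` and a function `c` on the elliptic curves
`E : y² = x³ + a x + b` over `F` (irreducible cubic), with average at most `C`, such that for EVERY finite
Galois extension `K / F` of 2-power degree `rank E(K) ≤ [K : F] (c(E) + 6 t)`, `t` = the number of the primes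
of `F` which ramify in `K`.

Plan.  `G = Gal(K / F)` is a 2-group, so `V = E(K) / 2 E(K)` satisfies `|V| ≤ |V^G| ^ |G|` (PGR).  Let `θ` be a
zero of the cubic, `L = F(θ)`, `M = K(θ)`.  For a point `P = (x, y)` whose class in `V` is fixed by `G` one has
`x - θ = α γ²` with `α ∈ L`, `γ ∈ M`, and the norm of `α` to `F` is a square (DES, Hilbert 90).  At the
primes `v` with `v² ∤ 4 a³ + 27 b²` that do not ramify in `K` the valuations of `α` are even (VAL).  Up to an index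
`2 ^ (6 (number of the other primes) + 3 [F : ℚ])` (IDX: COP, SQI, ABV) such an `α` comes, after multiplication
with a square, with a lattice `Λ` of project BR (CON, LAT).  The number of the square classes of such `α` with
a lattice is bounded on average (BR, done).  The number of the `v` with `v² ∣ 4 a³ + 27 b²` is bounded on average
(DIS).

The theorems to be proved are the `S_..` below. Deliver `theorem xx : S_XX`, with the earlier parts as explicit
hypotheses if they are used.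
-/

set_option autoImplicit false
set_option linter.all false

open Polynomial NumberField IsDedekindDomain
open scoped Classical

namespace Pool.Agent.P8H15.EK

open Pool.Agent.N783.PF (IsGen Lat fF Bd)
open Pool.Agent.P8H15.BR (el InR)
open Pool.Agent.N61.PF (pol)

/-- `y² = x³ + a x + b` -/
def crv {k : Type} [Field k] (a b : k) : WeierstrassCurve k := ⟨0, 0, 0, a, b⟩

/-- `w` lies over `v` -/
def Over {F L : Type} [Field F] [NumberField F] [Field L] [NumberField L] [Algebra F L]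
    (v : HeightOneSpectrum (𝓞 F)) (w : HeightOneSpectrum (𝓞 L)) : Prop :=
  ∀ z ∈ v.asIdeal, algebraMap (𝓞 F) (𝓞 L) z ∈ w.asIdeal

/-- `v` ramifies in `K`: `v 𝓞_K ⊆ w²` for some prime `w` of `K` over `v` -/
def RamIn {F : Type} [Field F] [NumberField F] (K : Type) [Field K] [NumberField K] [Algebra F K]
    (v : HeightOneSpectrum (𝓞 F)) : Prop :=
  ∃ w : HeightOneSpectrum (𝓞 K), Over v w ∧ Ideal.map (algebraMap (𝓞 F) (𝓞 K)) v.asIdeal ≤ w.asIdeal ^ 2

/-- the primes whose square divides `4 a³ + 27 b²` -/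
def SqD {F : Type} [Field F] [NumberField F] (a b : 𝓞 F) : Set (HeightOneSpectrum (𝓞 F)) :=
  {v | 4 * a ^ 3 + 27 * b ^ 2 ∈ v.asIdeal ^ 2}

/-- no two of the elements differ by a square factor -/
def Ineq {L : Type} [Field L] (s : Finset L) : Prop :=
  ∀ x ∈ s, ∀ y ∈ s, (∃ z : L, x = z ^ 2 * y) → x = y

section tower

variable {F K L M : Type} [Field F] [NumberField F] [Field K] [NumberField K] [Field L]
  [NumberField L] [Field M] [NumberField M] [Algebra F K] [Algebra F L] [Algebra K M] [Algebra L M]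

/-- The fields `F ⊆ L ⊆ M`, `F ⊆ K ⊆ M`, `M = K L`, and the extension `τ` of the automorphisms of `K / F` to
`M / L`, with fixed field `L`. -/
structure Tow (τ : Gal(K/F) →* Gal(M/L)) : Prop where
  comp : ∀ x : F, algebraMap K M (algebraMap F K x) = algebraMap L M (algebraMap F L x)
  act : ∀ (σ : Gal(K/F)) (x : K), τ σ (algebraMap K M x) = algebraMap K M (σ x)
  fix : ∀ z : M, (∀ σ, τ σ z = z) → ∃ x : L, algebraMap L M x = z

end tower

/-- PGR: a 2-group acting on an elementary abelian 2-group.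
PROOF. `V^G` is a subgroup of the elementary abelian group (an `𝔽₂`-vector space) `V`; choose an additive
retraction `π : V → V^G`. The map `V → (G → V^G)`, `v ↦ (g ↦ π (g • v))`, is injective: its kernel `N` is stable
under `G`, and `N ∩ V^G = 0` (`π` is the identity on `V^G`); a 2-group acting on the nonzero 2-group `N` has a
nonzero fixed point (Mathlib: `IsPGroup.card_modEq_card_fixedPoints`), so `N = 0`. -/
def S_PGR : Prop := ∀ (G V : Type) [Group G] [Finite G] [AddCommGroup V] [Finite V]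
  [DistribMulAction G V] (n : ℕ), Nat.card G = 2 ^ n → (∀ v : V, v + v = 0) →
  Nat.card V ≤ Nat.card {v : V // ∀ g : G, g • v = v} ^ Nat.card G

/-- SET: the tower exists.
PROOF. The cubic stays irreducible over `K`: a zero in `K` would have degree three over `F`, which does not divide
`2 ^ n`. Take `M = AdjoinRoot (cubic over K)` with the root `θ'`, `L = F⟮θ'⟯` (or `AdjoinRoot` of the cubic over
`F` with the lift to `M`). `τ σ`: the lift with `x ↦ σ x` on `K` and `θ' ↦ θ'`. An element `x + y θ' + z θ'²`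
fixed by all `τ σ` has `x, y, z` fixed by all `σ`, so in `F`. `IsGen 1 f θ` says: `f` monic of degree three,
`f(θ) = 0`, `[L : F] = 3`, `L = F + F θ + F θ²` (see `Pool/Agent/N783/PF/Lat.lean`; the existence of `L`, `θ` alone is
`S_GEN` there, proved in `Pool.Agent.N667.PF.gen`). -/
def S_SET : Prop := ∀ (F K : Type) [Field F] [NumberField F] [Field K] [NumberField K] [Algebra F K]
  [IsGalois F K] (n : ℕ), Module.finrank F K = 2 ^ n → ∀ a b : 𝓞 F, Irreducible (fF (pol a b)) →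
  ∃ (L M : Type) (_ : Field L) (_ : NumberField L) (_ : Field M) (_ : NumberField M)
    (_ : Algebra F L) (_ : Algebra K M) (_ : Algebra L M) (θ : L) (τ : Gal(K/F) →* Gal(M/L)),
    IsGen 1 (pol a b) θ ∧
    IsGen 1 (pol (algebraMap (𝓞 F) (𝓞 K) a) (algebraMap (𝓞 F) (𝓞 K) b)) (algebraMap L M θ) ∧
    Tow τ

/-- DES: descent of the class of a point.
PROOF. Let `α₀ = x - θ ∈ M`, `τ_σ α₀ = σ x - θ = β_σ² α₀`. The norm `N` from `M` to `K` (commutes with the `τ_σ`):
`N(α₀) = x³ + a x + b = y²`, `y ≠ 0` (the cubic has no zero in `K`: `IsGen` for `K`, `M`). So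
`N(β_σ) = ± σ(y) / y`, and replacing `β_σ` by `- β_σ` (odd degree) we may assume `N(β_σ) = σ(y) / y`. Then
`β_{στ} = β_σ · τ_σ(β_τ)`, as both sides have the same square and the same norm. By Dedekind's independence of the
distinct automorphisms `τ_σ` there is `z` with `γ' = ∑_σ β_σ τ_σ(z) ≠ 0` (or Hilbert 90 in Mathlib:
`groupCohomology.isMulCoboundary₁_of_isMulCocycle₁_of_aut_to_units`); `τ_σ(γ') = β_σ⁻¹ γ'`, so for `γ = γ'⁻¹`
`τ_σ γ = β_σ γ` and `α₀ / γ²` is fixed by all `τ_σ`, so in `L`. Norm: `N_{L/F}(α) = (y / N(γ))²` (the norm from `L`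
to `F` and from `M` to `K` of an element of `L` agree: same matrix in the basis `1, θ, θ²`) and `y / N(γ)` is
fixed by all `σ`, so in `F`. -/
def S_DES : Prop := ∀ (F K L M : Type) [Field F] [NumberField F] [Field K] [NumberField K] [Field L]
  [NumberField L] [Field M] [NumberField M] [Algebra F K] [Algebra F L] [Algebra K M] [Algebra L M]
  [IsGalois F K] (τ : Gal(K/F) →* Gal(M/L)) (θ : L) (a b : 𝓞 F), IsGen 1 (pol a b) θ →
  IsGen 1 (pol (algebraMap (𝓞 F) (𝓞 K) a) (algebraMap (𝓞 F) (𝓞 K) b)) (algebraMap L M θ) → Tow τ →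
  ∀ x y : K, y ^ 2 = x ^ 3 + algebraMap F K a * x + algebraMap F K b →
  (∀ σ : Gal(K/F), ∃ β : M, algebraMap K M (σ x) - algebraMap L M θ =
    β ^ 2 * (algebraMap K M x - algebraMap L M θ)) →
  ∃ (α : L) (γ : M), α ≠ 0 ∧ γ ≠ 0 ∧ algebraMap K M x - algebraMap L M θ = algebraMap L M α * γ ^ 2 ∧
    IsSquare (Algebra.norm F α)

/-- VAL: even valuations.
PROOF. Let `𝔓` be a prime of `M` over `w`, `𝔭 = 𝔓 ∩ K`, over `v`. (i) `𝔓 / w` is not ramified: the inertia group of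
`𝔓` in `Gal(M / L)` (automorphisms `τ σ`; `M / L` is Galois with group the image of `τ`, by `fix`) restricts to
the inertia group of `𝔭` in `Gal(K / F)`, which is trivial (`Pool.Agent.P8H4.PL.inertia_one` in
`Pool/Agent/P8H4/PL/Unr.lean` is of this form), and `τ` is injective. (ii) `v_𝔓 (x - θ)` is even: if `v_𝔭(x) < 0`
then `2 v_𝔭(y) = 3 v_𝔭(x)`, so `v_𝔭(x)` is even and `v_𝔓(x - θ) = v_𝔓(x)`. Otherwise
`(x - θ) (x² + θ x + θ² + a) = y²`, both factors integral at `𝔓`. If not both factors are in `𝔓` the claim holds.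
If both are, then `y ∈ 𝔭` and `3 x² + a ≡ 3 θ² + a ≡ 0`, so `f'(x) = 3 x² + a ∈ 𝔭`, `f(x) = y² ∈ 𝔭²`; the
discriminant of `f(T + x) = T³ + 3 x T² + f'(x) T + f(x)`, `= a₁² b₁² - 4 b₁³ - 4 a₁³ c₁ - 27 c₁² + 18 a₁ b₁ c₁` with
`a₁ = 3x`, `b₁ = f'(x)`, `c₁ = f(x)`, is `- (4 a³ + 27 b²)`, so `4 a³ + 27 b² ∈ 𝔭²`; as `𝔭 / v` is not ramified,
`4 a³ + 27 b² ∈ v²`, a contradiction. (iii) `v_w(α) = v_𝔓(α) = v_𝔓(x - θ) - 2 v_𝔓(γ)`. -/
def S_VAL : Prop := ∀ (F K L M : Type) [Field F] [NumberField F] [Field K] [NumberField K] [Field L]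
  [NumberField L] [Field M] [NumberField M] [Algebra F K] [Algebra F L] [Algebra K M] [Algebra L M]
  [IsGalois F K] (τ : Gal(K/F) →* Gal(M/L)) (θ : L) (a b : 𝓞 F), IsGen 1 (pol a b) θ →
  IsGen 1 (pol (algebraMap (𝓞 F) (𝓞 K) a) (algebraMap (𝓞 F) (𝓞 K) b)) (algebraMap L M θ) → Tow τ →
  ∀ x y : K, y ^ 2 = x ^ 3 + algebraMap F K a * x + algebraMap F K b →
  ∀ (α : L) (γ : M), α ≠ 0 → γ ≠ 0 →
  algebraMap K M x - algebraMap L M θ = algebraMap L M α * γ ^ 2 →
  ∀ (v : HeightOneSpectrum (𝓞 F)) (w : HeightOneSpectrum (𝓞 L)), Over v w → ¬ RamIn K v →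
  v ∉ SqD a b → IsSquare (w.valuation L α)

/-- CON: the conductor is supported at the primes whose squares divide the discriminant.
`InR F θ z` says that `z` has integral coordinates in `1, θ, θ²`.
PROOF. `D = {d ∈ 𝓞_F : d 𝓞_L ⊆ R}`, `R = 𝓞_F[θ]`; it contains `4 a³ + 27 b² ≠ 0` (the discriminant of `1, θ, θ²`).
If `v ∉ SqD` there is `d ∈ D`, `d ∉ v`: localise at `v`: `𝓞_{L,v}` is free of rank three over the discrete valuation
ring `𝓞_{F,v}`, the discriminants of `1, θ, θ²` and of a basis differ by the square of the determinant of the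
transition matrix, which is therefore a unit; so `R_v = 𝓞_{L,v}`. Elementary alternative: for `z ∈ 𝓞_L` write
`z = (x₀ + x₁ θ + x₂ θ²)`, the products `x_i x_j Δ` are integral (Cramer's rule for the traces of `z θ^i z' θ^j`). The
library has such facts (`S_INT` and `S_DSC` in `Pool/Agent/N783/PF/Lat.lean`, project UL, `Pool.Agent.N31.PF.int`). -/
def S_CON : Prop := ∀ (F L : Type) [Field F] [NumberField F] [Field L] [NumberField L] [Algebra F L]
  (a b : 𝓞 F) (θ : L), IsGen 1 (pol a b) θ → ∃ D : Ideal (𝓞 F), D ≠ ⊥ ∧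
    (∀ v : HeightOneSpectrum (𝓞 F), D ≤ v.asIdeal → v ∈ SqD a b) ∧
    ∀ d ∈ D, ∀ z : 𝓞 L, InR F θ (algebraMap F L (d : F) * (z : L))

/-- LAT: the lattice.
PROOF. `Λ = 𝔞 ∩ R`, `R = 𝓞_F[θ]` (the elements with `InR`), `𝔫 = D 𝓞_L ⊆ R`. It is finitely generated (a submodule of
`𝓞_L`) and contains nonzero multiples of all elements, and `θ Λ ⊆ Λ`. `β = 1 + d`, `d ∈ 𝔫`. (int) For `x, y ∈ Λ`
`z = x y / β ∈ 𝓞_L` (`x y ∈ 𝔞² = (β)`) and `z = x y - d z ∈ R`; so the coefficient of `θ²` of `z` is integral. (dual)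
Suppose `top (x y / β)` is integral for all `x ∈ Λ`. As `R Λ ⊆ Λ` and `R` is its own dual for `top`
(`top (θ^i θ^j)`: unimodular triangular matrix; see `lam_dual` in `Pool/Agent/P8H15/BR/Lat.lean`), `x y / β ∈ R` for all
`x ∈ Λ`, that is `x y ∈ β R`. There is `x₁ ∈ 𝔞` with `x₁ - 1 ∈ 𝔫` (`𝔞` and `𝔫` are coprime, since `β ∈ 𝔞`,
`β - 1 ∈ 𝔫`: take `x₁ = β`!), so `β ∈ Λ`. `Λ 𝓞_L = 𝔞`: for `z ∈ 𝔞`, `z = β z - d z` with `β ∈ Λ` and
`d z ∈ 𝔫 𝔞 ⊆ Λ`-combinations. Hence `y 𝔞 ⊆ β 𝓞_L = 𝔞²`, so `y ∈ 𝔞`; and `β y ∈ β R` gives `y ∈ R`. So `y ∈ Λ`. -/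
def S_LAT : Prop := ∀ (F L : Type) [Field F] [NumberField F] [Field L] [NumberField L] [Algebra F L]
  (a b : 𝓞 F) (θ : L) (hG : IsGen 1 (pol a b) θ) (D : Ideal (𝓞 F)), D ≠ ⊥ →
  (∀ d ∈ D, ∀ z : 𝓞 L, InR F θ (algebraMap F L (d : F) * (z : L))) →
  ∀ (β : 𝓞 L) (𝔞 : Ideal (𝓞 L)), β ≠ 0 → Ideal.span {β} = 𝔞 ^ 2 →
  β - 1 ∈ D.map (algebraMap (𝓞 F) (𝓞 L)) → ∃ Λ : Submodule (𝓞 F) L, Lat hG (β : L) Λ

/-- COP: elements with even valuations, up to squares.
PROOF. `(α) = 𝔟²` for a fractional ideal `𝔟`; there is `c ∈ L*` such that `c 𝔟` is integral and coprime to `𝔫` (choose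
`c` with prescribed valuations `- v_w(𝔟)` at the `w ∣ 𝔫` and `≥ - v_w(𝔟)` elsewhere: Chinese remainder theorem; or
the library on ideal classes containing ideals coprime to `𝔫`). Then `β = α c²`. -/
def S_COP : Prop := ∀ (L : Type) [Field L] [NumberField L] (α : L) (𝔫 : Ideal (𝓞 L)), α ≠ 0 → 𝔫 ≠ ⊥ →
  (∀ w : HeightOneSpectrum (𝓞 L), IsSquare (w.valuation L α)) →
  ∃ (c : L) (β : 𝓞 L) (𝔞 : Ideal (𝓞 L)), c ≠ 0 ∧ (β : L) = α * c ^ 2 ∧ Ideal.span {β} = 𝔞 ^ 2 ∧
    Ideal.span {β} ⊔ 𝔫 = ⊤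

/-- SQI: the number of the square classes modulo `𝔫`.
PROOF. The group `U = (𝓞_L / 𝔫)ˣ` is finite abelian, `|U / U²| = |U[2]|`. For `x ∈ 𝓞_L` with `x² - 1 ∈ 𝔫` and a prime
`w ∣ 𝔫` of exponent `m` in `𝔫`, one of the two elements `x ∓ 1` has valuation at most `w(2)`, so for a sign `s_w` the
other satisfies `w (x - s_w) ≥ m - w(2)`. Two solutions with the same signs satisfy `2 (x - x') ∈ 𝔫`, and the
number of the classes of `z` modulo `𝔫` with `2 z ∈ 𝔫` is `|(𝓞_L/𝔫)[2]| = |(𝓞_L/𝔫) / 2| ≤ |𝓞_L / 2| = 2^[L:ℚ]`. So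
`|U[2]| ≤ 2^{number of w ∣ 𝔫} 2^[L:ℚ]`. The elements of `s` have different classes in `U / U²` (if `x y` were a
square class then `x y c² ≡ 1` for some `c`). -/
def S_SQI : Prop := ∀ (L : Type) [Field L] [NumberField L] (𝔫 : Ideal (𝓞 L)), 𝔫 ≠ ⊥ →
  ∀ W : Finset (HeightOneSpectrum (𝓞 L)), (∀ w : HeightOneSpectrum (𝓞 L), 𝔫 ≤ w.asIdeal → w ∈ W) →
  ∀ s : Finset (𝓞 L), (∀ x ∈ s, Ideal.span {x} ⊔ 𝔫 = ⊤) →
  (∀ x ∈ s, ∀ y ∈ s, (∃ c : 𝓞 L, x * y * c ^ 2 - 1 ∈ 𝔫) → x = y) →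
  s.card ≤ 2 ^ (W.card + Module.finrank ℚ L)

/-- ABV: at most three primes of `L` over a prime of `F`, `[L : F] = 3` (`∑ e f = 3`, Mathlib:
`Ideal.sum_ramification_inertia`). -/
def S_ABV : Prop := ∀ (F L : Type) [Field F] [NumberField F] [Field L] [NumberField L] [Algebra F L],
  Module.finrank F L = 3 → ∀ T : Finset (HeightOneSpectrum (𝓞 F)),
  ∃ W : Finset (HeightOneSpectrum (𝓞 L)), W.card ≤ 3 * T.card ∧
    ∀ w : HeightOneSpectrum (𝓞 L), (∃ v ∈ T, Over v w) → w ∈ W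

/-- IDX (assembly of CON, LAT, COP, SQI, ABV, which are hypotheses).
PROOF. `W` for `T` by ABV. (1) Pigeonhole on the parities of the valuations at the `w ∈ W`: a subset `s₁` of `s` with
the same parities, `|s| ≤ 2^{3|T|} |s₁|`. If `s₁` is empty we are done. Fix `α₁ ∈ s₁`; all `α α₁`, `α ∈ s₁`, have even
valuations everywhere. (2) By COP with `𝔫 = D 𝓞_L` (`D` from CON) choose `β(α) = α α₁ c² ∈ 𝓞_L` coprime to `𝔫` with
`(β) = 𝔞²`. The primes `w` with `𝔫 ≤ w` lie over `T`. Say `α ~ α'` if `β(α) β(α') c² ≡ 1` modulo `𝔫` for some `c`;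
this is an equivalence relation and by SQI it has at most `2^{3|T| + 3[F:ℚ]}` classes; let `s₂ ⊆ s₁` be the largest
class, `α₂ ∈ s₂`. For `α ∈ s₂` let `δ(α) = β(α) β(α₂) c²`, with `c ∈ 𝓞_L` and `δ(α) - 1 ∈ 𝔫`: `(δ(α))` is the square
of an ideal and LAT gives a lattice. `s' = {δ(α)}`: `δ(α) = α α₂ · square`, so the norms are squares and
the `δ(α)` are pairwise inequivalent modulo squares. -/
def S_IDX : Prop := ∀ (F L : Type) [Field F] [NumberField F] [Field L] [NumberField L] [Algebra F L]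
  (a b : 𝓞 F) (θ : L) (hG : IsGen 1 (pol a b) θ) (T : Finset (HeightOneSpectrum (𝓞 F))),
  (∀ v ∈ SqD a b, v ∈ T) → ∀ s : Finset L, Ineq s →
  (∀ α ∈ s, α ≠ 0 ∧ IsSquare (Algebra.norm F α) ∧ ∀ w : HeightOneSpectrum (𝓞 L),
    (∀ v ∈ T, ¬ Over v w) → IsSquare (w.valuation L α)) →
  ∃ s' : Finset L, Ineq s' ∧ (∀ α ∈ s', α ≠ 0 ∧ IsSquare (Algebra.norm F α) ∧
    ∃ Λ : Submodule (𝓞 F) L, Lat hG α Λ) ∧
    s.card ≤ s'.card * 2 ^ (6 * T.card + 3 * Module.finrank ℚ F)

/-- SEL (assembly of PGR, SET, DES, VAL, IDX, which are hypotheses).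
PROOF. `V = E(K) / 2 E(K)` is finite (Mordell-Weil: `Pool.Agent.K4H55.BD.mw`) with at least `2 ^ rank` elements
(`Pool.Agent.Y155.QT14.two_pow_finrank_le` or its proof), `G = Gal(K / F)` acts (`WeierstrassCurve.Affine.Point.map`).
`|V| ≤ |V^G|^|G|` (PGR). Choose representatives `P_c`, `c ∈ V^G`, `P_0 = 0`. For `c ≠ 0` `P_c = (x, y)` and
`σ P_c - P_c ∈ 2 E(K)`, so `σ x - θ` and `x - θ` differ by a square in `M` (doubling formula / homomorphism
property of `x - θ`: the sum of three points on a line gives `(x₁-θ)(x₂-θ)(x₃-θ) = square`, see `add_sq` and its `key`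
in `Pool/Agent/P8H15/BR/Pts.lean`; for `Q = 2 R` the element `x_Q - θ` is a square). DES and VAL give `α_c ∈ L` with
`x - θ = α_c γ²`, `IsSquare (norm α_c)`, even valuations at all `w` not over `T`; `α_0 = 1`. The `α_c` are pairwise
inequivalent modulo squares of `L`: if `α_c = z² α_c'` then `x - θ` and `x' - θ` differ by a square in `M`, and
`P_c + P_c' ∈ 2 E(K)` by `Pool.Agent.P8H15.BR.add_sq` (applied to `K`, `M`), so `c = c'`; if `α_c = z²` then `x - θ` is a
square and `P_c ∈ 2 E(K)` (`halve_sq`, used in `BR/Pts.lean`). So IDX applies to the set of the `α_c`. -/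
def S_SEL : Prop := ∀ (F K : Type) [Field F] [NumberField F] [Field K] [NumberField K] [Algebra F K]
  [IsGalois F K] (n : ℕ), Module.finrank F K = 2 ^ n → ∀ a b : 𝓞 F, Irreducible (fF (pol a b)) →
  ∀ T : Finset (HeightOneSpectrum (𝓞 F)), (∀ v ∈ SqD a b, v ∈ T) →
  (∀ v : HeightOneSpectrum (𝓞 F), RamIn K v → v ∈ T) →
  ∃ (L : Type) (_ : Field L) (_ : NumberField L) (_ : Algebra F L) (θ : L) (hG : IsGen 1 (pol a b) θ)
    (s : Finset L), Ineq s ∧ (∀ α ∈ s, α ≠ 0 ∧ IsSquare (Algebra.norm F α) ∧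
      ∃ Λ : Submodule (𝓞 F) L, Lat hG α Λ) ∧
    2 ^ Module.finrank ℤ (crv (algebraMap F K a) (algebraMap F K b)).toAffine.Point ≤
      (s.card * 2 ^ (6 * T.card + 3 * Module.finrank ℚ F)) ^ Module.finrank F K

/-- DIS: the average of the number of the primes whose square divides `4 a³ + 27 b²`. The sums are over any finite set
`T` of pairs with `|σ a| ≤ B²`, `|σ b| ≤ B³` for all `σ` and `4 a³ + 27 b² ≠ 0`; `d = [F : ℚ]`.
PROOF. (i) `N v > B^d`: `∏ (N v)² ≤ |N(4a³+27b²)| ≤ (31 B⁶)^d`, so there are at most `6` such `v` for `B ≥ 31`. (ii)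
`N v ≤ B^d`, `v ∤ 6`: the number of the solutions of `4 a³ + 27 b² ≡ 0` modulo `v²` is less than `2 (N v)²` (`a ≡ b ≡ 0`
modulo `v`: `(N v)²`; the other points of the curve modulo `v`, `N v - 1` of them, are smooth and have `N v`
liftings each). The number of the `a` in a given class modulo `v²` with `|σ a| ≤ B²` is at most
`C (B^{2d} / (N v)² + 1) ≤ 2 C B^{2d} / (N v)²`, and for `b`: `≤ 2 C B^{3d} / (N v)²` (library: `S_PTS` in
`Pool/Agent/N783/PF/Def.lean`, proved in `Pool.Agent.N490.PF.pts`). So at most `8 C² B^{5d} / (N v)²` pairs. (iii) The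
finitely many `v ∣ 6`: the trivial bound (`S_PTS`). (iv) `∑_v (N v)^(-2) < ∞`. -/
def S_DIS : Prop := ∀ (F : Type) [Field F] [NumberField F], ∃ C B₀ : ℕ, 1 ≤ B₀ ∧ ∀ B ≥ B₀,
  ∀ T : Finset (𝓞 F × 𝓞 F), (∀ p ∈ T, Bd (p.1 : F) ((B : ℝ) ^ 2) ∧ Bd (p.2 : F) ((B : ℝ) ^ 3) ∧
    4 * p.1 ^ 3 + 27 * p.2 ^ 2 ≠ 0) →
  (∀ p ∈ T, (SqD p.1 p.2).Finite) ∧
  ∑ p ∈ T, (SqD p.1 p.2).ncard ≤ C * B ^ (5 * Module.finrank ℚ F)

/-- RAM: only finitely many primes ramify. (They contain the discriminant of `K`; see `Pool.Agent.N710.PF.not_mem_sq`.) -/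
def S_RAM : Prop := ∀ (F K : Type) [Field F] [NumberField F] [Field K] [NumberField K] [Algebra F K],
  {v : HeightOneSpectrum (𝓞 F) | RamIn K v}.Finite

end Pool.Agent.P8H15.EK
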