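import Pool.Agent.P8H15.EK.Fin
import Pool.Agent.P8H76.EK.Ram
import Pool.Agent.P8H76.EK.Idx
import Pool.Agent.P8H59.EK.Cond
import Pool.Agent.P8H59.EK.Sqi
import Pool.Agent.P8H94.EK.Cop
import Pool.Agent.P8H94.EK.Set
import Pool.Agent.P8H33.EK.Des
import Pool.Agent.P8H33.EK.Val
import Pool.Agent.P8H55.EK.Dis
import Pool.Agent.P8H55.EK.Lat
import Pool.Agent.P8H85.EK.Pgr
import Pool.Agent.P8H94.EK.Sel
import Pool.Agent.P8H53.EK.Di2

/-!
# Project EK: the parts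
-/

set_option autoImplicit false

namespace Pool.Agent.P8H15.EK

theorem pgr_ : S_PGR := Pool.Agent.P8H85.EK.pgr
theorem set_ : S_SET := Pool.Agent.P8H94.EK.set_
theorem des_ : S_DES := Pool.Agent.P8H33.EK.des
theorem val_ : S_VAL := Pool.Agent.P8H33.EK.val
theorem idx_ : S_IDX := Pool.Agent.P8H76.EK.idx Pool.Agent.P8H59.EK.con Pool.Agent.P8H55.EK.lat
  Pool.Agent.P8H94.EK.cop Pool.Agent.P8H59.EK.sqi Pool.Agent.P8H76.EK.abv
theorem dis_ : S_DIS := Pool.Agent.P8H55.EK.dis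
theorem ram_ : S_RAM := Pool.Agent.P8H76.EK.ram
theorem sel_ : S_SEL := Pool.Agent.P8H94.EK.sel pgr_ set_ des_ val_ idx_
theorem di2_ : S_DI2 := Pool.Agent.P8H53.EK.di2

end Pool.Agent.P8H15.EK
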